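import Mathlib

namespace Pool.Agent.Results.MP_dc9045_nt.PrimePowTimesPrime

open Finset

lemma rec' (a : ℕ → ℚ)
    (hrec : ∀ n : ℕ, 1 < n → a n = (1 / ((n : ℚ) - (Nat.totient n : ℚ))) *
      ((n : ℚ) + ∑ d ∈ n.properDivisors, (Nat.totient d : ℚ) * a d))
    (n : ℕ) (hn : 1 < n) :
    (n : ℚ) * a n = n + ∑ d ∈ n.divisors, (Nat.totient d : ℚ) * a d := by
  have h := hrec n hn
  have hlt : (Nat.totient n : ℚ) < n := by exact_mod_cast Nat.totient_lt n hn
  have hne : (n : ℚ) - (Nat.totient n : ℚ) ≠ 0 := by linarith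
  rw [← Nat.insert_self_properDivisors (by omega), sum_insert Nat.self_notMem_properDivisors]
  have h2 : a n * ((n : ℚ) - (Nat.totient n : ℚ)) =
      (n : ℚ) + ∑ d ∈ n.properDivisors, (Nat.totient d : ℚ) * a d := by
    rw [h]; field_simp
  linarith

lemma div_succ (p q k : ℕ) (hp : p.Prime) (hq : q.Prime) (hpq : p ≠ q) (f : ℕ → ℚ) :
    ∑ d ∈ (p ^ (k + 1) * q).divisors, f d =
      f (p ^ (k + 1)) + (f (p ^ (k + 1) * q) + ∑ d ∈ (p ^ k * q).divisors, f d) := by
  have hp1 := hp.one_lt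
  have hq1 := hq.one_lt
  have hpos : 0 < p ^ k := by positivity
  have hcop : Nat.Coprime p q := (Nat.coprime_primes hp hq).2 hpq
  have hnd : ¬ p ^ (k + 1) ∣ p ^ k * q := by
    intro h
    rw [pow_succ] at h
    have := Nat.dvd_of_mul_dvd_mul_left hpos h
    exact hpq ((Nat.prime_dvd_prime_iff_eq hp hq).1 this)
  have hset : (p ^ (k + 1) * q).divisors =
      insert (p ^ (k + 1)) (insert (p ^ (k + 1) * q) (p ^ k * q).divisors) := by
    ext d
    simp only [Nat.mem_divisors, mem_insert]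
    constructor
    · rintro ⟨h, -⟩
      obtain ⟨d1, d2, h1, h2, rfl⟩ := (Nat.dvd_mul).1 h
      obtain ⟨i, hi, rfl⟩ := (Nat.dvd_prime_pow hp).1 h1
      rcases Nat.lt_or_ge i (k + 1) with hlt | hge
      · right; right
        exact ⟨Nat.mul_dvd_mul (pow_dvd_pow p (by omega)) h2, by positivity⟩
      · have : i = k + 1 := by omega
        subst this
        rcases (Nat.dvd_prime hq).1 h2 with rfl | rfl
        · left; simp
        · right; left; rfl
    · rintro (rfl | rfl | ⟨h, -⟩)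
      · exact ⟨Dvd.intro _ rfl, by positivity⟩
      · exact ⟨dvd_rfl, by positivity⟩
      · exact ⟨h.trans (Nat.mul_dvd_mul_right (pow_dvd_pow p (by omega)) q), by positivity⟩
  rw [hset, sum_insert, sum_insert]
  · simp only [Nat.mem_divisors, not_and_or]
    left; intro h
    exact hnd ((Dvd.intro _ rfl).trans h)
  · simp only [mem_insert, Nat.mem_divisors, not_or, not_and_or]
    refine ⟨?_, Or.inl hnd⟩
    intro h
    have h3 : 0 < p ^ (k + 1) := by positivity
    nlinarith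

theorem result (a : ℕ → ℚ) (h1 : a 1 = 0)
    (hrec : ∀ n : ℕ, 1 < n → a n = (1 / ((n : ℚ) - (Nat.totient n : ℚ))) *
      ((n : ℚ) + ∑ d ∈ n.properDivisors, (Nat.totient d : ℚ) * a d))
    (p q k : ℕ) (hp : p.Prime) (hq : q.Prime) (hpq : p ≠ q) (hk : 1 ≤ k) :
    a (p ^ k * q) = k * ((p : ℚ) - 1) + 1 + ((q : ℚ) - 1) * ((q : ℚ) / ((p : ℚ) + q - 1)) ^ k ∧
      ¬ ∃ z : ℤ, a (p ^ k * q) = z := by
  have hp1 := hp.one_lt
  have hq1 := hq.one_lt
  have hpQ : (1 : ℚ) < p := by exact_mod_cast hp1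
  have hqQ : (1 : ℚ) < q := by exact_mod_cast hq1
  have hcop : Nat.Coprime p q := (Nat.coprime_primes hp hq).2 hpq
  have R := rec' a hrec
  have hprime : ∀ r : ℕ, r.Prime → a r = r := by
    intro r hr
    have h := R r hr.one_lt
    rw [hr.sum_divisors, Nat.totient_prime hr, h1, Nat.cast_sub hr.one_lt.le] at h
    push_cast at h
    linarith
  have tot : ∀ j : ℕ, (Nat.totient (p ^ (j + 1)) : ℚ) = (p : ℚ) ^ j * ((p : ℚ) - 1) := by
    intro j
    rw [Nat.totient_prime_pow_succ hp]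
    push_cast [Nat.cast_sub hp1.le]
    ring
  have hA : ∀ j : ℕ, a (p ^ (j + 1)) = ((j : ℚ) + 1) * ((p : ℚ) - 1) + 1 := by
    intro j
    induction j with
    | zero => simp [hprime p hp]
    | succ j ih =>
      have e1 := R (p ^ (j + 1)) (Nat.one_lt_pow (by omega) hp1)
      have e2 := R (p ^ (j + 1 + 1)) (Nat.one_lt_pow (by omega) hp1)
      rw [Nat.sum_divisors_prime_pow hp] at e1 e2
      rw [sum_range_succ, tot, ] at e2
      have hpp : (0 : ℚ) < (p : ℚ) ^ (j + 1) := by positivity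
      have : (p : ℚ) ^ (j + 1) * (a (p ^ (j + 1 + 1)) - (a (p ^ (j + 1)) + ((p : ℚ) - 1))) = 0 := by
        push_cast at e1 e2
        linear_combination e2 - e1
      rcases mul_eq_zero.1 this with h | h
      · exact absurd h hpp.ne'
      · push_cast; linarith
  have hN : (0 : ℚ) < (p : ℚ) + q - 1 := by linarith
  have hB : ∀ j : ℕ, a (p ^ j * q) =
      j * ((p : ℚ) - 1) + 1 + ((q : ℚ) - 1) * ((q : ℚ) / ((p : ℚ) + q - 1)) ^ j := by
    intro j
    induction j with
    | zero => simp [hprime q hq]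
    | succ j ih =>
      have g1 : 1 < p ^ j * q := by
        have : 0 < p ^ j := by positivity
        nlinarith
      have g2 : 1 < p ^ (j + 1) * q := by
        have : 0 < p ^ (j + 1) := by positivity
        nlinarith
      have e1 := R _ g1
      have e2 := R _ g2
      rw [div_succ p q j hp hq hpq, Nat.totient_mul (Nat.Coprime.pow_left _ hcop),
        Nat.totient_prime hq, Nat.cast_mul (Nat.totient _), tot, hA, Nat.cast_sub hq1.le] at e2
      have hpp : (0 : ℚ) < (p : ℚ) ^ j := by positivity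
      have : (p : ℚ) ^ j * (((p : ℚ) + q - 1) * a (p ^ (j + 1) * q) - (q * a (p ^ j * q) +
          q * ((p : ℚ) - 1) + ((p : ℚ) - 1) * (((j : ℚ) + 1) * ((p : ℚ) - 1) + 1))) = 0 := by
        push_cast at e1 e2
        linear_combination e2 - e1
      rcases mul_eq_zero.1 this with h | h
      · exact absurd h hpp.ne'
      · rw [ih] at h
        have hx : ((p : ℚ) + q - 1) * ((q : ℚ) / ((p : ℚ) + q - 1)) = q := by field_simp
        apply mul_left_cancel₀ hN.ne'
        push_cast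
        rw [pow_succ ((q : ℚ) / ((p : ℚ) + q - 1)) j]
        linear_combination h - ((q : ℚ) - 1) * ((q : ℚ) / ((p : ℚ) + q - 1)) ^ j * hx
  refine ⟨hB k, ?_⟩
  rintro ⟨z, hz⟩
  rw [hB k] at hz
  obtain ⟨p', rfl⟩ : ∃ p', p = p' + 1 := ⟨p - 1, by omega⟩
  obtain ⟨q', rfl⟩ : ∃ q', q = q' + 1 := ⟨q - 1, by omega⟩
  have hdiv : ((p' + q' + 1 : ℕ) : ℤ) ^ k ∣ ((q' * (q' + 1) ^ k : ℕ) : ℤ) := by
    refine ⟨z - k * p' - 1, ?_⟩
    have hN' : ((p' : ℚ) + q' + 1) ≠ 0 := by positivity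
    have e : ((p' + 1 : ℕ) : ℚ) + ((q' + 1 : ℕ) : ℚ) - 1 = (p' : ℚ) + q' + 1 := by push_cast; ring
    rw [e, div_pow] at hz
    have : (q' : ℚ) * ((q' : ℚ) + 1) ^ k = ((p' : ℚ) + q' + 1) ^ k * ((z : ℚ) - k * p' - 1) := by
      rw [← hz]; push_cast; field_simp; ring
    exact_mod_cast this
  have hdiv' : (p' + q' + 1) ^ k ∣ q' * (q' + 1) ^ k := by exact_mod_cast hdiv
  have hle : p' + q' + 1 ≤ (p' + q' + 1) ^ k := Nat.le_self_pow (by omega) _
  by_cases hd : (q' + 1) ∣ (p' + q' + 1)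
  · obtain ⟨c, hc⟩ := hd
    rw [hc, mul_pow, mul_comm q'] at hdiv'
    have h2 : c ^ k ∣ q' := Nat.dvd_of_mul_dvd_mul_left (by positivity) hdiv'
    have h3 : c ∣ q' := (dvd_pow_self c (by omega)).trans h2
    have h4 : c ∣ p' + q' + 1 := ⟨q' + 1, by rw [hc]; ring⟩
    have h5 : c ∣ p' + 1 := by
      have e : p' + q' + 1 = q' + (p' + 1) := by ring
      rw [e] at h4
      exact (Nat.dvd_add_right h3).1 h4
    rcases (Nat.dvd_prime hp).1 h5 with rfl | rfl
    · omega
    · have : 1 ≤ p' := by omega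
      have : 1 ≤ q' := by omega
      nlinarith
  · have hc : Nat.Coprime ((p' + q' + 1) ^ k) ((q' + 1) ^ k) :=
      Nat.Coprime.pow k k ((Nat.Prime.coprime_iff_not_dvd hq).2 hd).symm
    have h2 := Nat.le_of_dvd (by omega) (hc.dvd_of_dvd_mul_right hdiv')
    omega

end Pool.Agent.Results.MP_dc9045_nt.PrimePowTimesPrime
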